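import Pool.Agent.Helper65.KH.Goals

/-!
# Project KH (MP_20ee5e_ag): packet ST, stabilisation
-/

set_option autoImplicit false

namespace Pool.Agent.Helper39.KH.ST

open MvPolynomial
open Pool.Agent.Helper65.KH

theorem mem_mm {ι : Type} [Fintype ι] (p : ι → ℕ) (M : ℕ) (h : M ≤ ∑ i, p i) : mon p ∈ mm ι M :=
  Ideal.subset_span ⟨p, h, rfl⟩

theorem mm_zero (ι : Type) [Fintype ι] : mm ι 0 = ⊤ := by
  rw [Ideal.eq_top_iff_one]
  have : (1 : MvPolynomial ι ℚ) = mon (0 : ι → ℕ) := by simp [mon]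
  rw [this]
  exact mem_mm 0 0 (Nat.zero_le _)

theorem mon_add_single {ι : Type} [Fintype ι] [DecidableEq ι] (p : ι → ℕ) (i : ι) (h : 0 < p i) :
    mon p = X i * mon (Function.update p i (p i - 1)) := by
  unfold mon
  rw [← Finset.mul_prod_erase Finset.univ (fun j => (X j : MvPolynomial ι ℚ) ^ p j)
    (Finset.mem_univ i)]
  rw [← Finset.mul_prod_erase Finset.univ
    (fun j => (X j : MvPolynomial ι ℚ) ^ (Function.update p i (p i - 1) j)) (Finset.mem_univ i)]
  rw [← mul_assoc]
  congr 1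
  · rw [Function.update_self, ← pow_succ']
    congr 1
    omega
  · apply Finset.prod_congr rfl
    intro j hj
    rw [Function.update_of_ne (Finset.ne_of_mem_erase hj)]

theorem sum_update {ι : Type} [Fintype ι] [DecidableEq ι] (p : ι → ℕ) (i : ι) (h : 0 < p i) :
    ∑ j, p j = (∑ j, Function.update p i (p i - 1) j) + 1 := by
  rw [← Finset.add_sum_erase Finset.univ p (Finset.mem_univ i)]
  rw [← Finset.add_sum_erase Finset.univ (Function.update p i (p i - 1)) (Finset.mem_univ i)]
  rw [Function.update_self]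
  have : ∑ j ∈ Finset.univ.erase i, Function.update p i (p i - 1) j =
      ∑ j ∈ Finset.univ.erase i, p j := by
    apply Finset.sum_congr rfl
    intro j hj
    rw [Function.update_of_ne (Finset.ne_of_mem_erase hj)]
  rw [this]
  omega

theorem X_mul_mm {ι : Type} [Fintype ι] [DecidableEq ι] (i : ι) (k : ℕ) (m : MvPolynomial ι ℚ)
    (hm : m ∈ mm ι k) : X i * m ∈ mm ι (k + 1) := by
  unfold mm at hm
  refine Submodule.span_induction ?_ ?_ ?_ ?_ hm
  · rintro _ ⟨p, hp, rfl⟩
    have h1 : X i * mon p = mon (Function.update p i (p i + 1)) := by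
      rw [mon_add_single (Function.update p i (p i + 1)) i (by rw [Function.update_self]; omega)]
      rw [Function.update_self, Function.update_idem]
      congr 2
      simp
    rw [h1]
    apply mem_mm
    have := sum_update (Function.update p i (p i + 1)) i (by rw [Function.update_self]; omega)
    rw [this, Function.update_self, Function.update_idem]
    simpa using hp
  · rw [mul_zero]; exact Ideal.zero_mem _
  · intro x y _ _ hx hy
    rw [mul_add]; exact Ideal.add_mem _ hx hy
  · intro a x _ hx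
    rw [smul_eq_mul, ← mul_assoc, mul_comm (X i) a, mul_assoc]
    exact Ideal.mul_mem_left _ _ hx

theorem step {ι : Type} [Fintype ι] [DecidableEq ι] (Q : Ideal (MvPolynomial ι ℚ)) (k : ℕ)
    (h : mm ι k ≤ Q ⊔ mm ι (k + 1)) : mm ι (k + 1) ≤ Q ⊔ mm ι (k + 2) := by
  conv_lhs => unfold mm
  rw [Ideal.span_le]
  rintro _ ⟨p, hp, rfl⟩
  have hpos : ∃ i, 0 < p i := by
    by_contra hc
    push Not at hc
    have : ∑ i, p i = 0 := Finset.sum_eq_zero fun i _ => Nat.le_zero.mp (hc i)
    omega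
  obtain ⟨i, hi⟩ := hpos
  rw [mon_add_single p i hi]
  have h1 : mon (Function.update p i (p i - 1)) ∈ mm ι k := by
    apply mem_mm
    have := sum_update p i hi
    omega
  have h2 := h h1
  obtain ⟨q, hq, m, hm, hqm⟩ := Submodule.mem_sup.mp h2
  rw [SetLike.mem_coe, ← hqm, mul_add]
  exact Submodule.add_mem_sup (Ideal.mul_mem_left _ _ hq) (X_mul_mm i (k + 1) m hm)

theorem sup_step {ι : Type} [Fintype ι] [DecidableEq ι] (hFD : S_FD) (Q : Ideal (MvPolynomial ι ℚ))
    (j : ℕ) (hle : Q ⊔ mm ι (j + 1) ≤ Q ⊔ mm ι j) (h : dq Q j = dq Q (j + 1)) :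
    Q ⊔ mm ι j ≤ Q ⊔ mm ι (j + 1) := by
  have := hFD ι Q j
  have := hFD ι Q (j + 1)
  let f : (MvPolynomial ι ℚ ⧸ (Q ⊔ mm ι (j + 1))) →ₗ[ℚ] (MvPolynomial ι ℚ ⧸ (Q ⊔ mm ι j)) :=
    (Ideal.Quotient.factorₐ ℚ hle).toLinearMap
  have hs : Function.Surjective f := Ideal.Quotient.factor_surjective hle
  have hi : Function.Injective f :=
    (LinearMap.injective_iff_surjective_of_finrank_eq_finrank (f := f) h.symm).mpr hs
  intro x hx
  have h0 : f (Ideal.Quotient.mk _ x) = 0 := by
    have : f (Ideal.Quotient.mk _ x) = Ideal.Quotient.mk _ x := rfl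
    rw [this]
    exact Ideal.Quotient.eq_zero_iff_mem.mpr hx
  have h1 : Ideal.Quotient.mk (Q ⊔ mm ι (j + 1)) x = 0 := hi (by rw [h0, map_zero])
  exact Ideal.Quotient.eq_zero_iff_mem.mp h1

theorem mm_anti {ι : Type} [Fintype ι] {M M' : ℕ} (h : M' ≤ M) : mm ι M ≤ mm ι M' := by
  conv_lhs => unfold mm
  rw [Ideal.span_le]
  rintro _ ⟨p, hp, rfl⟩
  exact mem_mm p M' (h.trans hp)

/-- **ST** -/
theorem t (hFD : S_FD) (hMO : S_MO) : S_ST := by
  intro ι _ _ Q M n hM hn M'
  rcases le_or_gt M' M with hMM | hMM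
  · exact (hMO ι Q Q M M' le_rfl hMM).trans hM
  have hj : ∃ j, j < M ∧ dq Q j = dq Q (j + 1) := by
    by_contra hc
    push Not at hc
    have hge : ∀ j, j ≤ M → j ≤ dq Q j := by
      intro j
      induction j with
      | zero => intro _; exact Nat.zero_le _
      | succ j ih =>
        intro hj
        have h1 := ih (by omega)
        have h2 := hMO ι Q Q (j + 1) j le_rfl (Nat.le_succ j)
        have h3 := hc j (by omega)
        omega
    have := hge M le_rfl
    omega
  obtain ⟨j, hjM, hj⟩ := hj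
  have h0 : mm ι j ≤ Q ⊔ mm ι (j + 1) :=
    le_sup_right.trans (sup_step hFD Q j (sup_le_sup_left (mm_anti (Nat.le_succ j)) Q) hj)
  have hk : ∀ k, mm ι (j + k) ≤ Q ⊔ mm ι (j + k + 1) := by
    intro k
    induction k with
    | zero => exact h0
    | succ k ih => exact step Q (j + k) ih
  have hd : ∀ k, dq Q (j + k) = dq Q j := by
    intro k
    induction k with
    | zero => rfl
    | succ k ih =>
      rw [← ih]
      have : Q ⊔ mm ι (j + k) = Q ⊔ mm ι (j + k + 1) :=
        le_antisymm (sup_le le_sup_left (hk k)) (sup_le_sup_left (mm_anti (Nat.le_succ _)) Q)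
      unfold dq
      rw [this]
      rfl
  have h5 : M' = j + (M' - j) := by omega
  rw [h5, hd]
  exact (hMO ι Q Q M j le_rfl hjM.le).trans hM

end Pool.Agent.Helper39.KH.ST
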